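import Pool.Agent.UL4.Stmts

/-!
Squad UL4, row USC: the section areas of a compact set are upper semicontinuous.
-/

set_option autoImplicit false

namespace Pool.Agent.UL4.H36

open MeasureTheory Set Pool.Agent.UL3

theorem usc : UscStmt := by
  intro K hK t c hc
  have hsec : IsClosed (sec K t) := by
    have h1 : Continuous fun p : ℝ × ℝ => up p t := by
      unfold up
      refine (PiLp.continuous_toLp 2 _).comp ?_
      refine continuous_pi fun i => ?_
      fin_cases i
      · exact continuous_fst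
      · exact continuous_snd
      · exact continuous_const
    exact hK.isClosed.preimage h1
  have hpr : Continuous fun x : E3 => (x 0, x 1) := by fun_prop
  have hh : Continuous fun x : E3 => x 2 := by fun_prop
  have hfin : (volume : Measure (ℝ × ℝ)) (sec K t) < ⊤ := by
    have h2 : sec K t ⊆ (fun x : E3 => (x 0, x 1)) '' K := by
      intro p hp
      exact ⟨up p t, hp, by simp [up]⟩
    exact (measure_mono h2).trans_lt (hK.image hpr).measure_lt_top
  have hc0 : 0 < c := lt_of_le_of_lt ENNReal.toReal_nonneg hc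
  have h3 : (volume : Measure (ℝ × ℝ)) (sec K t) < ENNReal.ofReal c := by
    rw [ENNReal.lt_ofReal_iff_toReal_lt hfin.ne]
    exact hc
  obtain ⟨U, hU1, hU2, hU3⟩ := Set.exists_isOpen_lt_of_lt (sec K t) _ h3
  have hC : IsCompact (K ∩ (fun x : E3 => (x 0, x 1)) ⁻¹' Uᶜ) :=
    hK.inter_right (hU2.isClosed_compl.preimage hpr)
  have hI : IsClosed ((fun x : E3 => x 2) '' (K ∩ (fun x : E3 => (x 0, x 1)) ⁻¹' Uᶜ)) :=
    (hC.image hh).isClosed
  have ht : t ∉ (fun x : E3 => x 2) '' (K ∩ (fun x : E3 => (x 0, x 1)) ⁻¹' Uᶜ) := by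
    rintro ⟨x, ⟨hx1, hx2⟩, hx3⟩
    refine hx2 (hU1 ?_)
    change up (x 0, x 1) t ∈ K
    have hx3' : x 2 = t := hx3
    rw [← hx3', up_self]
    exact hx1
  filter_upwards [hI.isOpen_compl.mem_nhds ht] with s hs
  have h4 : sec K s ⊆ U := by
    intro p hp
    by_contra hpU
    refine hs ⟨up p s, ⟨hp, ?_⟩, by simp [up]⟩
    change ((up p s) 0, (up p s) 1) ∈ Uᶜ
    have : ((up p s) 0, (up p s) 1) = p := by simp [up]
    rw [this]
    exact hpU
  have h5 : (volume : Measure (ℝ × ℝ)) (sec K s) < ENNReal.ofReal c := (measure_mono h4).trans_lt hU3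
  change ((volume : Measure (ℝ × ℝ)) (sec K s)).toReal < c
  rw [← ENNReal.lt_ofReal_iff_toReal_lt (h5.trans_le le_top).ne]
  exact h5

end Pool.Agent.UL4.H36
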